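import Pool.Agent.MP_75da70_an.H8.Asm

namespace Pool.Agent.Results.MP_75da70_an.DgEqDb

open Pool.Agent.MP_75da70_an.H7 Pool.Agent.MP_75da70_an.H8

/-- For every compact Hausdorff space the global dimension and the bidimension of the algebra of
continuous functions coincide. -/
theorem result (Ω : Type) [TopologicalSpace Ω] [CompactSpace Ω] [T2Space Ω] :
    globDim C(Ω, ℂ) = biDim C(Ω, ℂ) := by
  rcases dims_cases (Ω := Ω) with h | ⟨r, h⟩ <;> rw [h.1, h.2]

end Pool.Agent.Results.MP_75da70_an.DgEqDb
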