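import Pool.Agent.MP_75da70_an.H8.Asm

namespace Pool.Agent.Results.MP_75da70_an.EvenOrInfinite

open Pool.Agent.MP_75da70_an.H7 Pool.Agent.MP_75da70_an.H8

/-- As `Ω` ranges over the compact Hausdorff spaces, the set of values of the global dimension of
`C(Ω)` and the set of values of its bidimension both consist of `∞` and the even numbers. -/
theorem result :
    {d : ℕ∞ | ∃ (Ω : Type) (_ : TopologicalSpace Ω) (_ : CompactSpace Ω) (_ : T2Space Ω),
        globDim C(Ω, ℂ) = d} = {d : ℕ∞ | d = ⊤ ∨ ∃ n : ℕ, d = 2 * (n : ℕ∞)} ∧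
    {d : ℕ∞ | ∃ (Ω : Type) (_ : TopologicalSpace Ω) (_ : CompactSpace Ω) (_ : T2Space Ω),
        biDim C(Ω, ℂ) = d} = {d : ℕ∞ | d = ⊤ ∨ ∃ n : ℕ, d = 2 * (n : ℕ∞)} := by
  constructor
  · ext d
    constructor
    · rintro ⟨Ω, _, _, _, rfl⟩
      rcases dims_cases (Ω := Ω) with h | ⟨r, h⟩
      · exact Or.inl h.1
      · exact Or.inr ⟨r, by rw [h.1]; push_cast; rfl⟩
    · intro hd
      obtain ⟨Ω, _, _, _, h⟩ := exists_space d hd
      exact ⟨Ω, _, inferInstance, inferInstance, h.1⟩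
  · ext d
    constructor
    · rintro ⟨Ω, _, _, _, rfl⟩
      rcases dims_cases (Ω := Ω) with h | ⟨r, h⟩
      · exact Or.inl h.2
      · exact Or.inr ⟨r, by rw [h.2]; push_cast; rfl⟩
    · intro hd
      obtain ⟨Ω, _, _, _, h⟩ := exists_space d hd
      exact ⟨Ω, _, inferInstance, inferInstance, h.2⟩

end Pool.Agent.Results.MP_75da70_an.EvenOrInfinite
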