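import Pool.Agent.MP_75da70_an.H7.ThmA
import Pool.Agent.MP_75da70_an.H7.Bridge

namespace Pool.Agent.Results.MP_75da70_an.InfiniteHeight

open Pool.Agent.MP_75da70_an.H7

universe u

/-- If every finite iterate of the derived set of a compact Hausdorff space is nonempty, then the
global dimension of the algebra of continuous functions is infinite. -/
theorem result (Ω : Type u) [TopologicalSpace Ω] [CompactSpace Ω] [T2Space Ω]
    (h : ∀ m : ℕ, (derivedSet^[m] (Set.univ : Set Ω)).Nonempty) :
    globDim C(Ω, ℂ) = ⊤ :=
  globDim_eq.trans (dg_eq_top h)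

end Pool.Agent.Results.MP_75da70_an.InfiniteHeight
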